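import Pool.Agent.Work.MP_3a3367_nt_log.Interface

/-!
# Block SP: independent events with given probabilities (helper29)
-/

set_option autoImplicit false

namespace Pool.Agent.Work.MP_3a3367_nt_log_h29

open Finset Filter MeasureTheory ProbabilityTheory
open Pool.Agent.Work.MP_3a3367_nt_log

/-- the law of a bit which is on with probability `r` -/
noncomputable def bitLaw (r : ℝ) : Measure Bool :=
  ENNReal.ofReal (1 - r) • Measure.dirac false + ENNReal.ofReal r • Measure.dirac true

theorem bitLaw_prob {r : ℝ} (h0 : 0 ≤ r) (h1 : r ≤ 1) : IsProbabilityMeasure (bitLaw r) := by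
  refine ⟨?_⟩
  unfold bitLaw
  simp only [Measure.coe_add, Measure.coe_smul, Pi.add_apply, Pi.smul_apply, measure_univ,
    smul_eq_mul, mul_one]
  rw [← ENNReal.ofReal_add (by linarith) h0]
  simp

theorem bitLaw_true (r : ℝ) : bitLaw r {true} = ENNReal.ofReal r := by
  unfold bitLaw
  simp

theorem stmt_SP : Stmt_SP := by
  intro r hr
  set P : ℕ → Measure Bool := fun p => bitLaw (r p) with hP
  have hPp : ∀ p, IsProbabilityMeasure (P p) := fun p => bitLaw_prob (hr p).1 (hr p).2
  set μ : Measure (ℕ → Bool) := Measure.infinitePi P with hμ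
  have hcoord : ∀ (p : ℕ) (s : Set Bool), μ {ω | ω p ∈ s} = P p s := by
    intro p s
    have h1 := Measure.infinitePi_map_eval P p
    have h2 : (Measure.map (fun x : ℕ → Bool => x p) μ) s = P p s := by rw [hμ, h1]
    rw [Measure.map_apply (measurable_pi_apply p)
      (Set.Countable.measurableSet (Set.to_countable s))] at h2
    exact h2
  have hm : ∀ p : ℕ, MeasurableSet {ω : ℕ → Bool | ω p ∈ ({true} : Set Bool)} := fun p =>
    measurable_pi_apply p (measurableSet_singleton true)
  refine ⟨ℕ → Bool, inferInstance, μ, inferInstance,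
    fun p => {ω | ω p ∈ ({true} : Set Bool)}, hm, ?_, ?_⟩
  · rw [iIndepSet_iff_meas_biInter hm]
    intro s
    have h1 : iIndepFun (fun (p : ℕ) (ω : ℕ → Bool) => id (ω p)) μ :=
      iIndepFun_infinitePi (fun _ => measurable_id)
    have h2 := h1.measure_inter_preimage_eq_mul s (sets := fun _ => ({true} : Set Bool))
      (fun _ _ => measurableSet_singleton true)
    exact h2
  · intro p
    rw [measureReal_def, hcoord, hP]
    simp only
    rw [bitLaw_true, ENNReal.toReal_ofReal (hr p).1]

end Pool.Agent.Work.MP_3a3367_nt_log_h29
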