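import Pool.Agent.Work.MP_3a3367_nt_log.Interface

/-!
# Block FIN2: a thin set of primes (helper29), from AS, CN3, SP
-/

set_option autoImplicit false

namespace Pool.Agent.Work.MP_3a3367_nt_log_h29

open Finset Filter MeasureTheory ProbabilityTheory
open scoped Classical
open Pool.Agent.Work.MP_3a3367_nt_log

theorem VV_pos (P : Finset ℕ) (hP : ∀ p ∈ P, p.Prime) : 0 < VV P := by
  unfold VV
  apply Finset.prod_pos
  intro p hp
  have h2 : (2 : ℝ) ≤ p := by exact_mod_cast (hP p hp).two_le
  have : 1 / (p : ℝ) ≤ 1 / 2 := one_div_le_one_div_of_le (by norm_num) h2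
  linarith

theorem UP_prime (M : Finset ℕ) (z : ℝ) : ∀ p ∈ UP M z, p.Prime := by
  intro p hp
  unfold UP at hp
  exact (Finset.mem_filter.1 (Finset.mem_sdiff.1 hp).1).2

theorem stmt_FIN2 (hAS : Stmt_AS.{0}) (hCN : Stmt_CN3.{0}) (hSP : Stmt_SP) : Stmt_FIN2 := by
  obtain ⟨β, θ, κ, K, hβ, hβ1, hθ, hσ, hκ, hK, hmain⟩ := hAS 1 le_rfl
  set r : ℕ → ℝ := fun p => min 1 (K * (Real.log p / p)) with hr
  obtain ⟨Ω, mΩ, μ, hμ, E, hE, hind, hEr⟩ := hSP r (by
    intro p
    constructor
    · apply le_min zero_le_one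
      have : 0 ≤ Real.log p := Real.log_natCast_nonneg p
      positivity
    · exact min_le_left _ _)
  have hev : ∀ᶠ p : ℕ in atTop, p.Prime → K * (Real.log p / p) ≤ μ.real (E p) := by
    have h1 : Tendsto (fun p : ℕ => K * (Real.log p / p)) atTop (nhds (K * 0)) := by
      apply Tendsto.const_mul
      have h2 : Tendsto (fun x : ℝ => Real.log x / x) atTop (nhds 0) := by
        have := Real.isLittleO_log_id_atTop
        exact this.tendsto_div_nhds_zero
      exact h2.comp tendsto_natCast_atTop_atTop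
    rw [mul_zero] at h1
    filter_upwards [h1.eventually (gt_mem_nhds zero_lt_one)] with p hp _
    rw [hEr]
    simp only [hr]
    rw [min_eq_right hp.le]
  have hev2 : ∀ᶠ p : ℕ in atTop, p.Prime → μ.real (E p) ≤ K * (Real.log p / p) := by
    filter_upwards with p _
    rw [hEr]
    exact min_le_right _ _
  have h1 := hmain μ E hE hind hev
  have h2 := hCN μ E hE hind K hev2
  obtain ⟨ω, hω1, C, hC⟩ := (h1.and h2).exists
  set T : Set ℕ := {p | p.Prime ∧ ω ∈ E p} with hT
  refine ⟨max 1 C, β / 4, le_max_left _ _, by positivity, T, fun p hp => hp.1, ?_, ?_⟩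
  · intro N hN
    have h3 : T ∩ Set.Iic N ⊆ ((MV E N ω : Finset ℕ) : Set ℕ) := by
      intro p hp
      unfold MV
      simp only [Finset.coe_filter, Finset.mem_filter, Finset.mem_range, Nat.floor_natCast,
        Set.mem_ofPred_eq]
      exact ⟨⟨Nat.lt_succ_of_le hp.2, hp.1.1⟩, hp.1.2⟩
    have h4 : (T ∩ Set.Iic N).ncard ≤ #(MV E N ω) := by
      have := Set.ncard_le_ncard h3 (Finset.finite_toSet _)
      rwa [Set.ncard_coe_finset] at this
    have h5 := hC N hN
    have h6 : 0 ≤ Real.log N := Real.log_natCast_nonneg N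
    calc ((T ∩ Set.Iic N).ncard : ℝ) ≤ (#(MV E N ω) : ℝ) := by exact_mod_cast h4
      _ ≤ C * Real.log N := h5
      _ ≤ max 1 C * Real.log N := mul_le_mul_of_nonneg_right (le_max_right _ _) h6
  · have hbig : ∀ᶠ n : ℕ in atTop, (2 : ℝ) ≤ (n : ℝ) ^ (2 * β) := by
      have := (tendsto_rpow_atTop (by positivity : 0 < 2 * β)).comp
        (tendsto_natCast_atTop_atTop (R := ℝ))
      exact this.eventually (eventually_ge_atTop 2)
    filter_upwards [hω1, hbig, eventually_ge_atTop 1] with n hn hn2 hn1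
    obtain ⟨D, hD1, hD2, hD3⟩ := hn
    have hn1' : (1 : ℝ) ≤ n := by exact_mod_cast hn1
    have hn0 : (0 : ℝ) < n := by linarith
    set z : ℝ := (n : ℝ) ^ θ with hz
    set h : ℕ := ⌊(n : ℝ) ^ (1 / 2 - β / 4)⌋₊ with hh
    set M : Finset ℕ := MV E z ω with hM
    have hh1 : 1 ≤ h := by
      rw [hh, Nat.one_le_floor_iff]
      exact Real.one_le_rpow hn1' (by linarith)
    have hhle : (h : ℝ) ≤ (n : ℝ) ^ (1 / 2 - β / 4) := Nat.floor_le (by positivity)
    have hprod : 0 < ∏ p ∈ D, (p : ℝ) := by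
      apply Finset.prod_pos
      intro p hp
      exact_mod_cast (hD1 p hp).1.pos
    have hpos : 0 < κ * ((h : ℝ) * VV (UP M z) / ∏ p ∈ D, (p : ℝ)) := by
      have := VV_pos (UP M z) (UP_prime M z)
      have hh0 : (0 : ℝ) < h := by exact_mod_cast hh1
      positivity
    have hcard : (0 : ℝ) < (#((WW β θ M n h).filter
        (fun m => PF z ((n : ℝ) ^ (1 / 2 + β)) m = D)) : ℝ) := lt_of_lt_of_le hpos hD3
    have hne : ((WW β θ M n h).filter
        (fun m => PF z ((n : ℝ) ^ (1 / 2 + β)) m = D)).Nonempty := by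
      rw [← Finset.card_pos]
      exact_mod_cast hcard
    obtain ⟨m, hm⟩ := hne
    rw [Finset.mem_filter] at hm
    obtain ⟨hmW, hmD⟩ := hm
    unfold WW at hmW
    rw [Finset.mem_filter] at hmW
    obtain ⟨hmR, P, hP, hPm, hPbig⟩ := hmW
    unfold Rg at hmR
    rw [Finset.mem_filter, Finset.mem_Ioc] at hmR
    obtain ⟨⟨hm1, hm2⟩, hm3⟩ := hmR
    refine ⟨m, P, hm1, ?_, hP, hPm, ?_, ?_⟩
    · calc (m : ℝ) ≤ ((n + h : ℕ) : ℝ) := by exact_mod_cast hm2
        _ = n + h := by push_cast; ring
        _ ≤ n + (n : ℝ) ^ (1 / 2 - β / 4) := by linarith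
    · refine lt_of_le_of_lt ?_ hPbig
      exact Real.rpow_le_rpow_of_exponent_le hn1' (by linarith)
    · intro q hq hqm
      have hqm' : q ∣ m := hqm.trans (Nat.div_dvd_of_dvd hPm)
      have hm0 : m ≠ 0 := by omega
      rcases le_or_gt (q : ℝ) z with hqz | hqz
      · -- small primes
        by_contra hcon
        have hqM : q ∉ M := by
          intro hqM
          rw [hM] at hqM
          unfold MV at hqM
          have := (Finset.mem_filter.1 hqM).2
          exact hcon ⟨hq, this⟩
        have hqU : q ∈ UP M z := by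
          unfold UP
          rw [Finset.mem_sdiff, Finset.mem_filter, Finset.mem_range]
          exact ⟨⟨Nat.lt_succ_of_le (Nat.le_floor hqz), hq⟩, hqM⟩
        exact hm3 q hqU hqm'
      · -- large primes
        have hmP : ((m / P : ℕ) : ℝ) * P = m := by
          have := Nat.div_mul_cancel hPm
          exact_mod_cast this
        have hqle : (q : ℝ) ≤ ((m / P : ℕ) : ℝ) := by
          have h7 : 0 < m / P := Nat.div_pos (Nat.le_of_dvd (by omega) hPm) hP.pos
          exact_mod_cast Nat.le_of_dvd h7 hqm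
        have hP0 : (0 : ℝ) < (n : ℝ) ^ (1 / 2 + β) := by positivity
        have hm2n : (m : ℝ) ≤ 2 * n := by
          have h8 : (h : ℝ) ≤ n := by
            refine hhle.trans ?_
            calc (n : ℝ) ^ (1 / 2 - β / 4) ≤ (n : ℝ) ^ (1 : ℝ) :=
                  Real.rpow_le_rpow_of_exponent_le hn1' (by linarith)
              _ = n := Real.rpow_one _
          calc (m : ℝ) ≤ ((n + h : ℕ) : ℝ) := by exact_mod_cast hm2
            _ = n + h := by push_cast; ring
            _ ≤ 2 * n := by linarith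
        have hqy : (q : ℝ) ≤ (n : ℝ) ^ (1 / 2 + β) := by
          have h9 : (q : ℝ) * (n : ℝ) ^ (1 / 2 + β) ≤ m := by
            rw [← hmP]
            exact mul_le_mul hqle hPbig.le hP0.le (by positivity)
          have h10 : (m : ℝ) ≤ (n : ℝ) ^ (1 / 2 + β) * (n : ℝ) ^ (1 / 2 + β) := by
            rw [← Real.rpow_add hn0]
            have h11 : (1 / 2 + β + (1 / 2 + β)) = 2 * β + 1 := by ring
            rw [h11, Real.rpow_add hn0, Real.rpow_one]
            nlinarith
          exact le_of_mul_le_mul_right (h9.trans h10) hP0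
        have hqD : q ∈ D := by
          rw [← hmD]
          unfold PF
          rw [Finset.mem_filter, Nat.mem_primeFactors]
          exact ⟨⟨hq, hqm', hm0⟩, hqz, hqy⟩
        exact ⟨hq, (hD1 q hqD).2.2⟩

end Pool.Agent.Work.MP_3a3367_nt_log_h29
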